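import Pool.Agent.W2helper89.MC.Stm
import Pool.Agent.Helper425.PA.CardSig

set_option autoImplicit false

/-!
# Project MC, pieces FULL and TRANS
-/

universe u

namespace Pool.Agent.W2helper92.MC

open Pool.Agent.Helper743 (TR RecT join pre Computable.recT TR.refl)
open Pool.Agent.Helper425.PA
open Pool.Agent.W2helper89.MC

/-- the top of the stack -/
def top {M : Type u} (s : List ((ℕ → M) → M) × List ((ℕ → M) → Prop)) : (ℕ → M) → Prop :=
  s.2.headD (fun _ => True)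

/-- the relation number `n` -/
def rel {M : Type u} [CommSemiring M] [LinearOrder M] (x : ℕ → M) (n : ℕ) : (ℕ → M) → Prop :=
  top (cB_run (((Encodable.decode n : Option (List (ℕ ⊕ ℕ))).getD []).map (Sum.map x id)) ([], []))

theorem exists_rel {M : Type u} [CommSemiring M] [LinearOrder M] {x : ℕ → M}
    (hx : Function.Surjective x) {P : (ℕ → M) → Prop} (hP : Arith P) : ∃ n, rel x n = P := by
  obtain ⟨l, hl⟩ := cB_arith hP
  have hs : Function.Surjective (Sum.map x id : ℕ ⊕ ℕ → M ⊕ ℕ) :=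
    Function.Surjective.sumMap hx Function.surjective_id
  obtain ⟨l', rfl⟩ := List.map_surjective_iff.2 hs l
  refine ⟨Encodable.encode l', ?_⟩
  unfold rel top
  rw [Encodable.encodek, Option.getD_some, hl]
  rfl

open Classical in
/-- PIECE FULL -/
theorem p_full : P_FULL.{u} := by
  intro M _ _ _ x hx
  refine ⟨fun k => if rel x k.unpair.1 (asg x k.unpair.2) then 1 else 0, ?_⟩
  intro P hP
  obtain ⟨n, hn⟩ := exists_rel hx hP
  have h1 := (TR.refl (fun k : ℕ => if rel x k.unpair.1 (asg x k.unpair.2) then 1 else 0))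
  have h2 := Pool.Agent.Helper743.RecT.comp h1
    (Pool.Agent.Helper743.RecT.pair (Computable.recT (Computable.const n))
      (Computable.recT Computable.id))
  refine Nat.RecursiveIn.of_eq h2 ?_
  intro k
  simp only [Nat.unpair_pair, id, hn]

variable {M : Type u} [CommSemiring M] [LinearOrder M] [PeanoModel M]

theorem exists_union (a b : M) : ∃ c : M, El c = El a ∪ El b := by
  obtain ⟨c, hc⟩ := exists_code (fun x => Mem x a ∨ Mem x b)
    ((Arith.mem (Tm.var 0) (Tm.const a)).or (Arith.mem (Tm.var 0) (Tm.const b))) (a + b) (by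
      rintro x (hx | hx)
      · exact lt_of_lt_of_le hx.lt le_self_add
      · exact lt_of_lt_of_le hx.lt le_add_self)
  exact ⟨c, Set.ext fun x => hc x⟩

theorem delta0_sub {f g : (ℕ → M) → M} (hf : Tm f) (hg : Tm g) :
    Delta0 (fun v => El (f v) ⊆ El (g v)) :=
  Delta0.ballMem (R := fun x v => Mem x (g v)) hf (Delta0.mem (Tm.var 0) hg.tail)

theorem sigma1_sub3 {R : M → M → M → Prop}
    (hR : Sigma1 (fun v : ℕ → M => R (v 0) (v 1) (v 2)))
    {f g h : (ℕ → M) → M} (hf : Tm f) (hg : Tm g) (hh : Tm h) :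
    Sigma1 (fun v => R (f v) (g v) (h v)) := by
  refine hR.subst (σ := fun i w => if i = 0 then f w else if i = 1 then g w else h w)
    fun i => ?_
  by_cases h0 : i = 0
  · simp only [h0, if_true]; exact hf
  · by_cases h1 : i = 1
    · simp only [h0, h1, if_true, if_false]; exact hg
    · simp only [h0, h1, if_false]; exact hh

/-- PIECE TRANS -/
theorem p_trans : P_TRANS.{u} := by
  intro M _ _ _ C B S hCS hCB
  obtain ⟨W, hW, hS⟩ := hCS
  obtain ⟨V, hV, hC⟩ := hCB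
  refine ⟨fun y K₀ K₁ => ∃ G₀ : M, ∃ G₁ : M, ∃ a : M, ∃ b : M, ∃ c : M, ∃ d : M,
    W y G₀ G₁ ∧ V G₀ 1 a b ∧ V G₁ 0 c d ∧ El a ⊆ El K₀ ∧ El b ⊆ El K₁ ∧ El c ⊆ El K₀ ∧
      El d ⊆ El K₁, ?_, fun y => ?_⟩
  · refine Sigma1.ex' (Sigma1.ex' (Sigma1.ex' (Sigma1.ex' (Sigma1.ex' (Sigma1.ex' ?_)))))
    exact (sigma1_sub3 hW (Tm.var 6) (Tm.var 5) (Tm.var 4)).and
      ((Sigma1.sub4 hV (Tm.var 5) (Tm.const 1) (Tm.var 3) (Tm.var 2)).and
      ((Sigma1.sub4 hV (Tm.var 4) (Tm.const 0) (Tm.var 1) (Tm.var 0)).and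
      ((delta0_sub (Tm.var 3) (Tm.var 7)).sigma1.and ((delta0_sub (Tm.var 2) (Tm.var 8)).sigma1.and
      ((delta0_sub (Tm.var 1) (Tm.var 7)).sigma1.and
        (delta0_sub (Tm.var 0) (Tm.var 8)).sigma1)))))
  · rw [hS]
    constructor
    · rintro ⟨G₀, G₁, h0, h1, hw⟩
      obtain ⟨a, b, ha, hb, hab⟩ := (hC G₀).1.1 h0
      obtain ⟨c, d, hc, hd, hcd⟩ := (hC G₁).2.1 h1
      obtain ⟨K₀, hK0⟩ := exists_union a c
      obtain ⟨K₁, hK1⟩ := exists_union b d
      refine ⟨K₀, K₁, ?_, ?_, G₀, G₁, a, b, c, d, hw, hab, hcd, ?_, ?_, ?_, ?_⟩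
      · rw [hK0]; exact Set.union_subset ha hc
      · rw [hK1]; exact Set.union_subset hb hd
      · rw [hK0]; exact Set.subset_union_left
      · rw [hK1]; exact Set.subset_union_left
      · rw [hK0]; exact Set.subset_union_right
      · rw [hK1]; exact Set.subset_union_right
    · rintro ⟨K₀, K₁, h0, h1, G₀, G₁, a, b, c, d, hw, hab, hcd, ha, hb, hc, hd⟩
      exact ⟨G₀, G₁, (hC G₀).1.2 ⟨a, b, ha.trans h0, hb.trans h1, hab⟩,
        (hC G₁).2.2 ⟨c, d, hc.trans h0, hd.trans h1, hcd⟩, hw⟩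

end Pool.Agent.W2helper92.MC
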